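import Mathlib
import Pool.Agent.L0h42.LP.L5

/-!
# Linear polynomials of every slope, almost all constant terms

Let `P(x) = a x + c` with integers `a ≥ 1` and `c ≥ 1`. For every slope `a` which is a power of two, for example
`P(x) = x + c`, almost all `c` have the property that `p_n + 2 P(n)` is prime for at least `c / (log c) ^ (2 + η)` of
the `n ≤ c`, for every `η > 0`. For the other slopes the same holds for almost all those `c` which are divisible by all
the odd prime divisors of `a`.

Nothing is known on the distribution of `p_n + 2 a n` in residue classes, because it depends on the prime `p_n` and on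
its index at the same time. Here `n` is restricted to the residue class modulo the product `M` of the primes up to a small
multiple of `log log c` in which `a n + c` is divisible by all the odd prime divisors of `M`; then
`p_n + 2 P(n) ≡ p_n` has no prime divisors in common with `M`. The remaining set of the `p_n + 2 P(n)` is arbitrary for
the rest of the proof (second moment over `c` with a sieve model of the primes, exponential sums), with a bound for all
the moments of the arithmetic weight of the differences which allows an arbitrarily small multiple of `log log c`.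
-/

set_option autoImplicit false

open Finset Polynomial

namespace Pool.Agent.Results.MP_3aaefc_nt.AlmostAllLinearPolynomials

/-- the `n`-th prime, `n ≥ 1` -/
noncomputable def p (n : ℕ) : ℕ := Nat.nth Nat.Prime (n - 1)

/-- the polynomial `a x + c` -/
noncomputable def linear (a c : ℕ) : ℚ[X] := C (a : ℚ) * X + C (c : ℚ)

/-- the number of the `1 ≤ n ≤ N` for which `p_n + 2 P(n)` is a prime number -/
noncomputable def primeValues (P : ℚ[X]) (N : ℕ) : ℕ :=
  Set.ncard {n : ℕ | 1 ≤ n ∧ n ≤ N ∧ ∃ q : ℕ, q.Prime ∧ (q : ℚ) = (p n : ℚ) + 2 * P.eval (n : ℚ)}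

/-- every odd prime divisor of `a` divides `c` -/
def Compatible (a c : ℕ) : Prop := ∀ l : ℕ, l.Prime → l ≠ 2 → l ∣ a → l ∣ c

open Classical in
/-- the number of the `1 ≤ c ≤ X` with the property `P` for which `p_n + 2 (a n + c)` is prime for fewer than
`c / (log c) ^ (2 + η)` of the `n ≤ c` -/
noncomputable def exceptions (a : ℕ) (P : ℕ → Prop) (η : ℝ) (X : ℕ) : ℕ :=
  ((Icc 1 X).filter (fun c : ℕ => P c ∧ (primeValues (linear a c) c : ℝ) < c / Real.log c ^ (2 + η))).card

lemma hits_le (a c N : ℕ) : Pool.Agent.L0h42.LP.hits a c N ≤ primeValues (linear a c) N := by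
  unfold Pool.Agent.L0h42.LP.hits primeValues
  rw [← Set.ncard_coe_finset]
  apply Set.ncard_le_ncard
  · intro n hn
    rw [mem_coe, mem_filter, mem_Icc] at hn
    refine ⟨hn.1.1, hn.1.2, _, hn.2, ?_⟩
    unfold linear p Pool.Agent.L0h42.LP.pr
    rw [eval_add, eval_mul, eval_C, eval_X, eval_C]
    push_cast
    ring
  · exact (Set.finite_Icc 1 N).subset fun n hn => ⟨hn.1, hn.2.1⟩

lemma exceptions_mono {a : ℕ} {P P' : ℕ → Prop} (h : ∀ c, P c → P' c) (η : ℝ) (X : ℕ) :
    exceptions a P η X ≤ exceptions a P' η X := by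
  classical
  unfold exceptions
  apply card_le_card
  intro c hc
  rw [mem_filter] at hc ⊢
  exact ⟨hc.1, h c hc.2.1, hc.2.2⟩

/-- (1) For every slope `a ≥ 1` almost all the compatible `c` are such that `p_n + 2 (a n + c)` is prime for at least
`c / (log c) ^ (2 + η)` of the `n ≤ c`. (2) For the slopes `a = 2 ^ j` this holds for almost all `c`. -/
theorem result :
    (∀ a : ℕ, 1 ≤ a → ∀ η : ℝ, 0 < η → ∀ ε : ℝ, 0 < ε → ∃ X₀ : ℕ, ∀ X : ℕ, X₀ ≤ X →
      (exceptions a (Compatible a) η X : ℝ) ≤ ε * X) ∧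
    (∀ j : ℕ, ∀ η : ℝ, 0 < η → ∀ ε : ℝ, 0 < ε → ∃ X₀ : ℕ, ∀ X : ℕ, X₀ ≤ X →
      (exceptions (2 ^ j) (fun _ => True) η X : ℝ) ≤ ε * X) := by
  classical
  have h1 : ∀ a : ℕ, ∀ η : ℝ, 0 < η → ∀ ε : ℝ, 0 < ε → ∃ X₀ : ℕ, ∀ X : ℕ, X₀ ≤ X →
      (exceptions a (Compatible a) η X : ℝ) ≤ ε * X := by
    intro a η hη ε hε
    obtain ⟨X0, h⟩ := Pool.Agent.L0h42.LP.linear a η ε hη hε
    refine ⟨X0, fun X hX => le_trans (Nat.cast_le.2 (card_le_card ?_)) (h X hX)⟩
    intro c hc
    rw [mem_filter] at hc ⊢
    exact ⟨hc.1, hc.2.1, lt_of_le_of_lt (Nat.cast_le.2 (hits_le a c c)) hc.2.2⟩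
  refine ⟨fun a _ => h1 a, fun j η hη ε hε => ?_⟩
  obtain ⟨X0, h⟩ := h1 (2 ^ j) η hη ε hε
  refine ⟨X0, fun X hX => le_trans (Nat.cast_le.2 (exceptions_mono ?_ η X)) (h X hX)⟩
  intro c _ l hl hl2 hla
  exact absurd ((Nat.prime_dvd_prime_iff_eq hl Nat.prime_two).1 (hl.dvd_of_dvd_pow hla)) hl2

end Pool.Agent.Results.MP_3aaefc_nt.AlmostAllLinearPolynomials
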