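import Mathlib
import Pool.Agent.L0h42.PP.P12

/-!
# Constant polynomials: the property holds at many indices at bounded distance

For a constant polynomial `P = c` the question asks for infinitely many `n` with `p_n + 2 c` prime. Here: for every `m`
there is `C` such that almost all `c` have at least `c / (log c) ^ E` indices `n` with `p_n ≤ c / Q` such that
`p_n + 2 c` is prime and at least `m` of the following `C` indices `n'` have the same property, `p_n' + 2 c` prime, with
`p_n' ≤ p_n + C`.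
-/

set_option autoImplicit false

open Finset

namespace Pool.Agent.Results.MP_3aaefc_nt.ClustersConstantPolynomials

/-- the `n`-th prime, `n ≥ 1` -/
noncomputable def p (n : ℕ) : ℕ := Nat.nth Nat.Prime (n - 1)

open Classical in
/-- the number of the indices `n' ∈ (n, n + C]` with `p_n' + 2 c` prime and `p_n' ≤ p_n + C` -/
noncomputable def following (c C n : ℕ) : ℕ :=
  ((Ioc n (n + C)).filter (fun n' => (p n' + 2 * c).Prime ∧ p n' ≤ p n + C)).card

/-- the number of the `n ≥ 1` with `Q p_n ≤ c` such that `p_n + 2 c` is prime and at least `m` of the indices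
`n' ∈ (n, n + C]` have `p_n' + 2 c` prime, `p_n' ≤ p_n + C` -/
noncomputable def clusters (c m C Q : ℕ) : ℕ :=
  Set.ncard {n : ℕ | 1 ≤ n ∧ Q * p n ≤ c ∧ (p n + 2 * c).Prime ∧ m ≤ following c C n}

theorem p_strictMono {n n' : ℕ} (hn : 1 ≤ n) (h : n < n') : p n < p n' :=
  Nat.nth_strictMono Nat.infinite_setOfPred_prime (by omega)

theorem p_gt (n : ℕ) (hn : 1 ≤ n) : n < p n := by
  have h := Nat.add_two_le_nth_prime (n - 1)
  unfold p
  omega

theorem exists_p {q : ℕ} (hq : q.Prime) : ∃ n, 1 ≤ n ∧ p n = q :=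
  ⟨Nat.count Nat.Prime q + 1, by omega, by
    unfold p
    rw [Nat.add_sub_cancel]
    exact Nat.nth_count hq⟩

/-- the index grows at most as fast as the prime -/
theorem index_le {n n' d : ℕ} (hn : 1 ≤ n) (h : p n' = p n + d) : n' ≤ n + d := by
  by_contra hcon
  push Not at hcon
  -- the primes of index `n, …, n + d + 1` are distinct
  have h1 : ∀ k, p n + k ≤ p (n + k) := by
    intro k
    induction k with
    | zero => simp
    | succ k ih =>
      have := p_strictMono (n := n + k) (n' := n + (k + 1)) (by omega) (by omega)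
      omega
  have h2 := h1 (d + 1)
  have h3 : p (n + (d + 1)) ≤ p n' := by
    rcases Nat.lt_or_ge (n + (d + 1)) n' with h4 | h4
    · exact (p_strictMono (by omega) h4).le
    · have : n + (d + 1) = n' := by omega
      rw [this]
  omega

open Pool.Agent.L0h42.PP in
theorem Pt_le (m C Q c : ℕ) (D : Finset ℕ) (hQ : 1 ≤ Q) (hD : D ⊆ Icc 1 C) (hm : D.card = m) :
    (Pt 1 (2 * Q) D (2 * c)).card ≤ clusters c m C Q := by
  classical
  unfold clusters
  obtain ⟨ix, hix⟩ : ∃ ix : ℕ → ℕ, ∀ q, q.Prime → 1 ≤ ix q ∧ p (ix q) = q := by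
    refine ⟨fun q => if h : q.Prime then (exists_p h).choose else 0, fun q hq => ?_⟩
    simp only [dif_pos hq]
    exact (exists_p hq).choose_spec
  have h1 : ((Pt 1 (2 * Q) D (2 * c)).image ix).card = (Pt 1 (2 * Q) D (2 * c)).card := by
    apply card_image_of_injOn
    intro q hq q' hq' h
    rw [mem_coe] at hq hq'
    unfold Pt at hq hq'
    rw [mem_filter] at hq hq'
    have e1 : q.Prime := by simpa using (hq.2.2 0 (mem_insert_self _ _)).1
    have e2 : q'.Prime := by simpa using (hq'.2.2 0 (mem_insert_self _ _)).1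
    rw [← (hix q e1).2, ← (hix q' e2).2, h]
  rw [← h1, ← Set.ncard_coe_finset]
  apply Set.ncard_le_ncard
  · intro n hn
    rw [mem_coe, mem_image] at hn
    obtain ⟨q, hq, rfl⟩ := hn
    unfold Pt at hq
    rw [mem_filter, mem_Icc] at hq
    obtain ⟨⟨hq1, hq2⟩, hq3, hq4⟩ := hq
    have hqp : q.Prime := by simpa using (hq4 0 (mem_insert_self _ _)).1
    obtain ⟨g1, g2⟩ := hix q hqp
    refine ⟨g1, ?_, ?_, ?_⟩
    · rw [g2]
      have e1 : 2 * Q * q = 2 * (Q * q) := by ring
      omega
    · rw [g2]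
      have h2 := (hq4 0 (mem_insert_self _ _)).2
      have e1 : (((2 * c : ℕ) : ℤ) + 1 * ((q + 0 : ℕ) : ℤ)).toNat = q + 2 * c := by omega
      rwa [e1] at h2
    · rw [← hm]
      unfold following
      apply card_le_card_of_injOn (fun d => ix (q + d))
      · intro d hd
        rw [mem_coe] at hd
        have hd1 := mem_Icc.1 (hD hd)
        obtain ⟨h2, h3⟩ := hq4 d (mem_insert_of_mem hd)
        obtain ⟨g3, g4⟩ := hix (q + d) h2
        rw [mem_coe, mem_filter, mem_Ioc]
        dsimp only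
        have g5 : ix q < ix (q + d) := by
          by_contra hcon
          push Not at hcon
          rcases Nat.lt_or_ge (ix (q + d)) (ix q) with h5 | h5
          · have := p_strictMono g3 h5
            omega
          · have : ix (q + d) = ix q := by omega
            rw [this] at g4
            omega
        have g6 := index_le g1 (g4.trans (by rw [g2]))
        refine ⟨⟨g5, by omega⟩, ?_, ?_⟩
        · rw [g4]
          have e1 : (((2 * c : ℕ) : ℤ) + 1 * ((q + d : ℕ) : ℤ)).toNat = q + d + 2 * c := by omega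
          rwa [e1] at h3
        · rw [g4, g2]
          omega
      · intro d hd d' hd' h
        rw [mem_coe] at hd hd'
        have h2 := (hix (q + d) (hq4 d (mem_insert_of_mem hd)).1).2
        have h3 := (hix (q + d') (hq4 d' (mem_insert_of_mem hd')).1).2
        simp only at h
        rw [h, h3] at h2
        omega
  · apply (Set.finite_Icc 1 c).subset
    intro n hn
    have h2 := p_gt n hn.1
    have h3 : p n ≤ Q * p n := Nat.le_mul_of_pos_left _ hQ
    rw [Set.mem_Icc]
    exact ⟨hn.1, by have := hn.2.1; omega⟩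

/-- passage from `2 c` to `c` -/
lemma log_two (E : ℕ) : ∃ n0 : ℕ, ∀ n : ℕ, n0 ≤ n → (n : ℝ) / Real.log n ^ (E + 1) ≤ ((2 * n : ℕ) : ℝ) / Real.log ((2 * n : ℕ) : ℝ) ^ E := by
  obtain ⟨n1, h1⟩ := Pool.Agent.H373R2.T7.ev_L' (2 ^ E + 1)
  refine ⟨max n1 3, fun n hn => ?_⟩
  have hn5 : n1 ≤ n := le_trans (le_max_left _ _) hn
  have hn6 : 3 ≤ n := le_trans (le_max_right _ _) hn
  have b1 := h1 n hn5
  have hp : (1 : ℝ) ≤ 2 ^ E := one_le_pow₀ (by norm_num)
  have hL0 : 0 < Real.log n := by linarith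
  have hnr : (3 : ℝ) ≤ n := by exact_mod_cast hn6
  have g1 : Real.log ((2 * n : ℕ) : ℝ) ≤ 2 * Real.log n := by
    have : ((2 * n : ℕ) : ℝ) ≤ (n : ℝ) ^ 2 := by push_cast; nlinarith
    have h9 := Real.log_le_log (by push_cast; linarith) this
    rw [Real.log_pow] at h9
    exact_mod_cast h9
  have g0 : 0 < Real.log ((2 * n : ℕ) : ℝ) := by
    apply Real.log_pos
    push_cast
    linarith
  have g2 : Real.log ((2 * n : ℕ) : ℝ) ^ E ≤ (2 * Real.log n) ^ E := pow_le_pow_left₀ g0.le g1 E
  rw [div_le_div_iff₀ (by positivity) (by positivity)]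
  push_cast at g2 ⊢
  calc (n : ℝ) * Real.log (2 * n) ^ E ≤ n * (2 * Real.log n) ^ E := mul_le_mul_of_nonneg_left g2 (by linarith)
    _ = n * (2 ^ E * Real.log n ^ E) := by rw [mul_pow]
    _ ≤ n * (Real.log n * Real.log n ^ E) := by
        apply mul_le_mul_of_nonneg_left _ (by linarith)
        apply mul_le_mul_of_nonneg_right _ (by positivity)
        linarith
    _ = 1 * n * Real.log n ^ (E + 1) := by ring
    _ ≤ 2 * n * Real.log n ^ (E + 1) := by gcongr; norm_num

/-- For every `m` there is `C` such that for almost all `c` the property `p_n + 2 c` prime holds at `n` and at `m` or more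
of the following `C` indices, for at least `c / (log c) ^ E` indices `n` with `p_n ≤ c / Q`. -/
theorem result (m : ℕ) : ∃ C : ℕ, ∀ Q : ℕ, 1 ≤ Q → ∀ ε : ℝ, 0 < ε → ∃ E X₀ : ℕ, ∀ X : ℕ, X₀ ≤ X →
    (((Icc 1 X).filter (fun c : ℕ => (clusters c m C Q : ℝ) < c / Real.log c ^ E)).card : ℝ) ≤ ε * X := by
  classical
  obtain ⟨C, h⟩ := Pool.Agent.L0h42.PP.pat 1 (Or.inl rfl) m 1 le_rfl
  refine ⟨C, fun Q hQ ε hε => ?_⟩
  obtain ⟨E, N0, h0⟩ := h (2 * Q) (by omega) (ε / 4) (by positivity)
  obtain ⟨n0, hn0⟩ := log_two E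
  refine ⟨E + 1, max N0 ⌈2 * n0 / ε⌉₊, fun X hX => ?_⟩
  have hN1 : N0 ≤ X := le_trans (le_max_left _ _) hX
  have hNn : 2 * (n0 : ℝ) / ε ≤ X := (Nat.le_ceil _).trans (by exact_mod_cast le_trans (le_max_right _ _) hX)
  have key := h0 (2 * X) (by omega)
  have hsub : ((Icc 1 X).filter (fun c : ℕ => (clusters c m C Q : ℝ) < c / Real.log c ^ (E + 1))).card ≤
      n0 + ((Icc 1 (2 * X)).filter (fun n => Even n ∧ ¬ Pool.Agent.L0h42.PP.PtE 1 (2 * Q) m 1 C E n)).card := by
    have e1 : (range n0).card = n0 := card_range n0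
    rw [← e1]
    refine le_trans ?_ (add_le_add le_rfl (card_image_le
      (s := ((Icc 1 (2 * X)).filter (fun n => Even n ∧ ¬ Pool.Agent.L0h42.PP.PtE 1 (2 * Q) m 1 C E n)))
      (f := fun n => n / 2)))
    refine le_trans (card_le_card ?_) (card_union_le _ _)
    intro n hn
    rw [mem_filter, mem_Icc] at hn
    obtain ⟨⟨hn1, hn2⟩, hn3⟩ := hn
    rw [mem_union, mem_range, mem_image]
    by_cases hn4 : n < n0
    · exact Or.inl hn4
    · right
      refine ⟨2 * n, ?_, by omega⟩
      rw [mem_filter, mem_Icc]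
      refine ⟨⟨by omega, by omega⟩, even_two_mul n, ?_⟩
      rintro ⟨D, hD1, hD2, hD3, hD4⟩
      have h3 : (n : ℝ) / Real.log n ^ (E + 1) ≤ clusters n m C Q :=
        (hn0 n (by omega)).trans (hD4.trans (Nat.cast_le.2 (Pt_le m C Q n D hQ hD1 hD2)))
      linarith
  have h2 : (((Icc 1 X).filter (fun c : ℕ => (clusters c m C Q : ℝ) < c / Real.log c ^ (E + 1))).card : ℝ) ≤
      n0 + (((Icc 1 (2 * X)).filter (fun n => Even n ∧ ¬ Pool.Agent.L0h42.PP.PtE 1 (2 * Q) m 1 C E n)).card : ℝ) := by
    exact_mod_cast hsub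
  push_cast at key
  rw [div_le_iff₀ hε] at hNn
  linarith

end Pool.Agent.Results.MP_3aaefc_nt.ClustersConstantPolynomials
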