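import Mathlib
import Pool.Agent.L0h42.LP.L8

/-!
# Linear polynomials whose slope is not a power of two: most constant terms

Let `P(x) = a x + c` where `a ≥ 1` has an odd prime divisor, and let `ρ` be the product of the `1 - 1 / l` over the odd
prime divisors `l` of `a`. For all but at most `(1 - ρ + ε) X` of the `c ≤ X` the number `p_n + 2 P(n)` is prime for at
least `c / (log c) ^ (2 + η)` of the `n ≤ c`.

For a prime divisor `l` of `a` the residue class of `p_n + 2 P(n)` modulo `l` is that of `p_n + 2 c`, and nothing is known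
on the distribution of `p_n` modulo `l` when `n` is restricted to the residue class modulo the other small primes in which
`a n + c` is divisible by them. But the pairs (index `n`, constant term `c`) modulo the product of the small primes can be
counted: for each `n` the number of the classes of `c` which are good for `n` is the expected one, and no class of `c` has
more indices than a progression allows; hence the proportion of the classes of `c` with a positive proportion of the
expected number of good indices is at least `ρ - ε`. For such a class the set of the `p_n + 2 P(n)`, an arbitrary set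
without small prime factors, is treated as in `AlmostAllLinearPolynomials` (second moment, all the moments of the
arithmetic weight).
-/

set_option autoImplicit false

open Finset Polynomial

namespace Pool.Agent.Results.MP_3aaefc_nt.MostConstantTermsEverySlope

/-- the `n`-th prime, `n ≥ 1` -/
noncomputable def p (n : ℕ) : ℕ := Nat.nth Nat.Prime (n - 1)

/-- the polynomial `a x + c` -/
noncomputable def linear (a c : ℕ) : ℚ[X] := C (a : ℚ) * X + C (c : ℚ)

/-- the number of the `1 ≤ n ≤ N` for which `p_n + 2 P(n)` is a prime number -/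
noncomputable def primeValues (P : ℚ[X]) (N : ℕ) : ℕ :=
  Set.ncard {n : ℕ | 1 ≤ n ∧ n ≤ N ∧ ∃ q : ℕ, q.Prime ∧ (q : ℚ) = (p n : ℚ) + 2 * P.eval (n : ℚ)}

/-- the odd prime divisors of `a` -/
def oddPrimes (a : ℕ) : Finset ℕ := a.primeFactors.erase 2

open Classical in
/-- the number of the `1 ≤ c ≤ X` for which `p_n + 2 (a n + c)` is prime for fewer than `c / (log c) ^ (2 + η)` of the
`n ≤ c` -/
noncomputable def exceptions (a : ℕ) (η : ℝ) (X : ℕ) : ℕ :=
  ((Icc 1 X).filter (fun c : ℕ => (primeValues (linear a c) c : ℝ) < c / Real.log c ^ (2 + η))).card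

lemma hits_le (a c N : ℕ) : Pool.Agent.L0h42.LP.hits a c N ≤ primeValues (linear a c) N := by
  unfold Pool.Agent.L0h42.LP.hits primeValues
  rw [← Set.ncard_coe_finset]
  apply Set.ncard_le_ncard
  · intro n hn
    rw [mem_coe, mem_filter, mem_Icc] at hn
    refine ⟨hn.1.1, hn.1.2, _, hn.2, ?_⟩
    unfold linear p Pool.Agent.L0h42.LP.pr
    rw [eval_add, eval_mul, eval_C, eval_X, eval_C]
    push_cast
    ring
  · exact (Set.finite_Icc 1 N).subset fun n hn => ⟨hn.1, hn.2.1⟩

/-- For every slope `a ≥ 1` with an odd prime divisor all but at most `(1 - ρ + ε) X` of the `c ≤ X`, `ρ` the product of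
the `1 - 1 / l` over the odd prime divisors `l` of `a`, are such that `p_n + 2 (a n + c)` is prime for at least
`c / (log c) ^ (2 + η)` of the `n ≤ c`. -/
theorem result : ∀ a : ℕ, 1 ≤ a → (oddPrimes a).Nonempty → ∀ η : ℝ, 0 < η → ∀ ε : ℝ, 0 < ε → ∃ X₀ : ℕ, ∀ X : ℕ, X₀ ≤ X →
    (exceptions a η X : ℝ) ≤ (1 - ∏ l ∈ oddPrimes a, (1 - 1 / (l : ℝ)) + ε) * X := by
  classical
  intro a ha _ η hη ε hε
  obtain ⟨X0, h⟩ := Pool.Agent.L0h42.LP.every a ha η ε hη hε
  refine ⟨X0, fun X hX => le_trans (Nat.cast_le.2 (card_le_card ?_)) (h X hX)⟩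
  intro c hc
  rw [mem_filter] at hc ⊢
  exact ⟨hc.1, lt_of_le_of_lt (Nat.cast_le.2 (hits_le a c c)) hc.2⟩

end Pool.Agent.Results.MP_3aaefc_nt.MostConstantTermsEverySlope
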