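import Mathlib
import Pool.Agent.L0h42.SC.S3

/-!
# Several constant polynomials with the property at the same index

For constant polynomials the question asks for infinitely many `n` with `p_n + 2 c` prime. Here: for every `m` there is
`κ` such that, for every `B`, all the constants `c ≤ X` up to a proportion `κ / B` have a set `D` of `m` integers in `[1, B]`
such that for at least `c / (log c) ^ E` of the `n` with `p_n ≤ c / Q` the number `p_n + 2 P(n)` is prime for the constant
polynomials `P = c` and `P = c + d`, all `d ∈ D`, at the same time.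

Proof (`Pool/Agent/L0h42/SC`): the weights of Maynard and Tao for the numbers `p + 2 c + 2 h_i`, `i ≤ k`, summed over the
primes `p` of a residue class modulo the product of the small primes, have a small variance over `c`
(`Pool/Agent/L0h42/CP`); hence for almost all `c` and every tuple `h` of multiples of the small primes at least `m + 1` of the
`p + 2 (c + h_i)` are prime for many `p`. The tuples in `[1, B]` being arbitrary, fewer than `k` of the translates of a
given `c` are not the beginning of a pattern.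
-/

set_option autoImplicit false

open Finset Polynomial

namespace Pool.Agent.Results.MP_3aaefc_nt.SeveralConstantsOneIndex

/-- the `n`-th prime, `n ≥ 1` -/
noncomputable def p (n : ℕ) : ℕ := Nat.nth Nat.Prime (n - 1)

/-- `p_n + 2 P(n)` is a prime number -/
def IsHit (P : ℚ[X]) (n : ℕ) : Prop := ∃ q : ℕ, q.Prime ∧ (q : ℚ) = (p n : ℚ) + 2 * P.eval (n : ℚ)

/-- the number of the `n ≥ 1` with `Q p_n ≤ c` for which `p_n + 2 P(n)` is prime for the constant polynomials `P = c` and
`P = c + d`, for all `d ∈ D` -/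
noncomputable def common (D : Finset ℕ) (Q c : ℕ) : ℕ :=
  Set.ncard {n : ℕ | 1 ≤ n ∧ Q * p n ≤ c ∧ IsHit (C (c : ℚ)) n ∧ ∀ d ∈ D, IsHit (C ((c + d : ℕ) : ℚ)) n}

/-- for some set `D` of `m` integers in `[1, B]` there are at least `c / (log c) ^ E` such `n` -/
def Rich (m B E Q c : ℕ) : Prop := ∃ D ⊆ Icc 1 B, D.card = m ∧ (c : ℝ) / Real.log c ^ E ≤ common D Q c

theorem p_gt (n : ℕ) (hn : 1 ≤ n) : n < p n := by
  have h := Nat.add_two_le_nth_prime (n - 1)
  unfold p
  omega

theorem exists_p {q : ℕ} (hq : q.Prime) : ∃ n, 1 ≤ n ∧ p n = q :=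
  ⟨Nat.count Nat.Prime q + 1, by omega, by
    unfold p
    rw [Nat.add_sub_cancel]
    exact Nat.nth_count hq⟩

open Pool.Agent.L0h42.SC in
theorem RD_le (D : Finset ℕ) (Q c : ℕ) (hQ : 1 ≤ Q) : (RD Q D c).card ≤ common D Q c := by
  classical
  unfold common
  obtain ⟨ix, hix⟩ : ∃ ix : ℕ → ℕ, ∀ q, q.Prime → 1 ≤ ix q ∧ p (ix q) = q := by
    refine ⟨fun q => if h : q.Prime then (exists_p h).choose else 0, fun q hq => ?_⟩
    simp only [dif_pos hq]
    exact (exists_p hq).choose_spec
  have h1 : ((RD Q D c).image ix).card = (RD Q D c).card := by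
    apply card_image_of_injOn
    intro q hq q' hq' h
    rw [mem_coe] at hq hq'
    unfold RD at hq hq'
    rw [mem_filter] at hq hq'
    rw [← (hix q hq.2.2.1).2, ← (hix q' hq'.2.2.1).2, h]
  rw [← h1, ← Set.ncard_coe_finset]
  apply Set.ncard_le_ncard
  · intro n hn
    rw [mem_coe, mem_image] at hn
    obtain ⟨q, hq, rfl⟩ := hn
    unfold RD at hq
    rw [mem_filter] at hq
    obtain ⟨_, hq2, hq3, hq4, hq5⟩ := hq
    obtain ⟨g1, g2⟩ := hix q hq3
    refine ⟨g1, ?_, ⟨q + 2 * c, hq4, ?_⟩, fun d hd => ⟨q + 2 * (c + d), hq5 d hd, ?_⟩⟩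
    · rw [g2]
      exact hq2
    · rw [g2, eval_C]
      push_cast
      ring
    · rw [g2, eval_C]
      push_cast
      ring
  · apply (Set.finite_Icc 1 c).subset
    intro n hn
    have h2 := p_gt n hn.1
    have h3 : p n ≤ Q * p n := Nat.le_mul_of_pos_left _ hQ
    rw [Set.mem_Icc]
    exact ⟨hn.1, by have := hn.2.1; omega⟩

open Classical in
/-- For every `m` there is `κ` such that for all `Q, B ≥ 1` there is `E` with: for large `X`, for all but at most
`(κ / B) X` of the constants `c ≤ X` there is a set `D` of `m` integers in `[1, B]` such that for at least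
`c / (log c) ^ E` indices `n` with `Q p_n ≤ c` the number `p_n + 2 P(n)` is prime for `P = c` and for all `P = c + d`,
`d ∈ D`. -/
theorem result (m : ℕ) : ∃ κ : ℝ, ∀ Q B : ℕ, 1 ≤ Q → 1 ≤ B → ∃ E X₀ : ℕ, ∀ X : ℕ, X₀ ≤ X →
    (((Icc 1 X).filter (fun c : ℕ => ¬ Rich m B E Q c)).card : ℝ) ≤ κ / B * X := by
  obtain ⟨κ, _, h⟩ := Pool.Agent.L0h42.SC.exactc m
  refine ⟨κ, fun Q B hQ hB => ?_⟩
  obtain ⟨E, X0, h0⟩ := h Q B hQ hB
  refine ⟨E, X0, fun X hX => le_trans (Nat.cast_le.2 (card_le_card ?_)) (h0 X hX)⟩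
  intro c hc
  rw [mem_filter] at hc ⊢
  refine ⟨hc.1, fun hP => hc.2 ?_⟩
  obtain ⟨D, hD1, hD2, hD3⟩ := hP
  exact ⟨D, hD1, hD2, hD3.trans (by exact_mod_cast RD_le D Q c hQ)⟩

end Pool.Agent.Results.MP_3aaefc_nt.SeveralConstantsOneIndex
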